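import Pool.Agent.Q87.CarlemanNormal

/-! Full answer: no such operator exists. For every normal Carleman operator on `L²(a,b)` with
kernel `ν` one has `∫ |ν(x,y)|² dx = ∫ |ν(y,x)|² dx < ∞` for almost every `y`. -/

set_option autoImplicit false
open MeasureTheory Q87.Carleman

namespace Pool.Agent.Results.MP_0ee9ff_an.NormalCarleman

/-- Let `N` be a bounded normal operator on `L²(a,b)` which is a Carleman operator with kernel `k`.
Then for almost every `y` the integral of `|k(x,y)|²` over `x` is finite, and it equals the
integral of `|k(y,x)|²` over `x`. -/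
theorem result (a b : EReal) (N : BOp (mu a b)) (hN : NormalOp N) (k : ℝ → ℝ → ℂ)
    (hk : CarlKernel N k) :
    ∀ᵐ y ∂(mu a b), colSq (mu a b) k y = rowSq (mu a b) k y ∧ colSq (mu a b) k y < ⊤ :=
  normal_main' a b N hN k hk

end Pool.Agent.Results.MP_0ee9ff_an.NormalCarleman
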